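import Mathlib
import Pool.Agent.Lib.lead.Hess2

set_option autoImplicit false

namespace Pool.Agent.Results.MP_44891f_nt.Finite

open Matrix Pool.Agent.Lib.LeadHess

/-- The matrix `H_Ω^v(m,n)`. -/
def H (a11 a21 a12 a22 a32 a13 a23 a33 m n : ℤ) : Matrix (Fin 3) (Fin 3) ℤ :=
  !![a11, a12, a11 * m + a12 * n + a13; a21, a22, a21 * m + a22 * n + a23; 0, a32, a32 * n + a33]

/-- NRS-matrices. -/
def NRS (A : Matrix (Fin 3) (Fin 3) ℤ) : Prop :=
  A.det = 1 ∧ Irreducible (A.charpoly.map (Int.castRingHom ℚ)) ∧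
    ∃ (r : ℝ) (τ : ℂ), τ.im ≠ 0 ∧
      (A.charpoly.map (Int.castRingHom ℂ)).roots = {(r : ℂ), τ, (starRingEnd ℂ) τ}

/-- Hessenberg-shaped elements of `SL(3,ℤ)`. -/
def Shaped (M : Matrix (Fin 3) (Fin 3) ℤ) : Prop := M.det = 1 ∧ M 2 0 = 0 ∧ M 1 0 * M 2 1 ≠ 0

/-- Hessenberg complexity. -/
def complexity (M : Matrix (Fin 3) (Fin 3) ℤ) : ℤ := |M 1 0 ^ 2 * M 2 1|

/-- Reduced Hessenberg-shaped matrices. -/
def Reduced (M : Matrix (Fin 3) (Fin 3) ℤ) : Prop :=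
  Shaped M ∧ ∀ (M' : Matrix (Fin 3) (Fin 3) ℤ) (P : GL (Fin 3) ℤ), Shaped M' →
    M' = (P⁻¹ : GL (Fin 3) ℤ) * M * P → complexity M ≤ complexity M'

theorem result (a11 a21 a12 a22 a32 a13 a23 a33 : ℤ) (h21 : 1 ≤ a21) (h32 : 1 ≤ a32)
    (hdet : (!![a11, a12, a13; a21, a22, a23; 0, a32, a33] : Matrix (Fin 3) (Fin 3) ℤ).det = 1) :
    Set.Finite {M : Matrix (Fin 3) (Fin 3) ℤ |
      (∃ m n : ℤ, M = H a11 a21 a12 a22 a32 a13 a23 a33 m n) ∧ NRS M ∧ ¬ Reduced M} := by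
  set L : ℤ := (400 * |a21 ^ 2 * a32| ^ 6) ^ 2 + 400 with hL
  let f : ℤ × ℤ → Matrix (Fin 3) (Fin 3) ℤ := fun p => H a11 a21 a12 a22 a32 a13 a23 a33 p.1 p.2
  let g : ℤ × ℤ → ℤ × ℤ := fun p => (f p 0 0 + f p 1 1 + f p 2 2, sb (f p))
  have hg : Function.Injective g := by
    rintro ⟨m, n⟩ ⟨m', n'⟩ h
    simp only [g, f, H, sb, Prod.mk.injEq] at h
    simp at h
    obtain ⟨e1, e2⟩ := h
    have hn : n = n' := e1.resolve_right (by omega)
    subst hn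
    have : (a21 * a32) * m = (a21 * a32) * m' := by linear_combination -e2
    rw [mul_left_cancel₀ (by positivity) this]
  have hF : (g ⁻¹' (Set.Icc (-(3 * L)) (3 * L) ×ˢ Set.Icc (-(3 * L ^ 2)) (3 * L ^ 2))).Finite :=
    ((Set.finite_Icc _ _).prod (Set.finite_Icc _ _)).preimage hg.injOn
  refine (hF.image f).subset ?_
  rintro M ⟨⟨m, n, hM⟩, ⟨hd, -, r, τ, hτ, hroots⟩, hred⟩
  refine ⟨(m, n), ?_, hM.symm⟩
  have m20 : M 2 0 = 0 := by simp [hM, H]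
  have m10 : M 1 0 = a21 := by simp [hM, H]
  have m21 : M 2 1 = a32 := by simp [hM, H]
  have hs : Shaped M := ⟨hd, m20, by rw [m10, m21]; positivity⟩
  simp only [Reduced, hs, true_and, not_forall, not_le] at hred
  obtain ⟨M', P, ⟨-, s1, s2⟩, hP, hlt⟩ := hred
  have hP' : M * P = P * M' := by
    rw [hP, ← mul_assoc, ← mul_assoc, ← Units.val_mul, mul_inv_cancel, Units.val_one, one_mul]
  have dP : |(P : Matrix (Fin 3) (Fin 3) ℤ).det| = 1 :=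
    Int.isUnit_iff_abs_eq.1 ((Matrix.isUnit_iff_isUnit_det _).1 P.isUnit)
  have c1 := cyc_conj M M' P hP' e0
  rw [cyc_e0 M' s1] at c1
  have c2 : |cyc M ((P : Matrix (Fin 3) (Fin 3) ℤ) *ᵥ e0)| = complexity M' := by
    rw [c1, abs_mul, dP, one_mul, complexity]
  have hroot : (M.charpoly.map (Int.castRingHom ℂ)).IsRoot τ :=
    Polynomial.isRoot_of_mem_roots (by rw [hroots]; simp)
  have R := roots_of _ _ τ hτ (root_eq M hd τ hroot)
  have := ML3 M M.adjugate _ _ (by rw [mul_adjugate, hd, one_smul]) (CH M) R L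
    (by rw [cyc_e0 M m20, m10, m21]) ((P : Matrix (Fin 3) (Fin 3) ℤ) *ᵥ e0) (by
      rw [← abs_pos, c2, complexity, abs_pos]
      exact mul_ne_zero (pow_ne_zero _ (left_ne_zero_of_mul s2)) (right_ne_zero_of_mul s2))
    (by rw [c2, cyc_e0 M m20]; exact hlt)
  rw [hM] at this
  exact this

end Pool.Agent.Results.MP_44891f_nt.Finite
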